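import Pool.Agent.P.MP_26a8c3_nt.HybS.Reduce

/-! Discrepancy of the integers coprime to a fixed modulus. -/

namespace Pool.Agent.P.MP_26a8c3_nt.HybS

open Finset

lemma cop_succ (W n : ℕ) :
    cop W 0 (n + 1) = cop W 0 n + if Nat.gcd (n + 1) W = 1 then 1 else 0 := by
  unfold cop
  rw [← Finset.insert_Ioc_right_eq_Ioc_add_one (Nat.zero_le n), Finset.filter_insert]
  by_cases h : Nat.gcd (n + 1) W = 1
  · rw [if_pos h, if_pos h, Finset.card_insert_of_notMem (by simp)]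
  · rw [if_neg h, if_neg h, add_zero]

lemma cop_zero (W : ℕ) : cop W 0 0 = 0 := by simp [cop]

lemma cop_add (W : ℕ) {A B : ℕ} (h : A ≤ B) : cop W 0 A + cop W A B = cop W 0 B := by
  unfold cop
  rw [← Finset.card_union_of_disjoint, ← Finset.filter_union,
    Finset.Ioc_union_Ioc_eq_Ioc (Nat.zero_le A) h]
  exact Finset.disjoint_filter_filter (Finset.Ioc_disjoint_Ioc_of_le le_rfl)

lemma cop_period (W n : ℕ) : cop W 0 (n + W) = cop W 0 n + cop W 0 W := by
  induction n with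
  | zero => simp [cop_zero]
  | succ n ih =>
    rw [show n + 1 + W = (n + W) + 1 by ring, cop_succ, cop_succ, ih,
      show n + W + 1 = (n + 1) + W by ring]
    simp only [Nat.gcd_add_self_left]
    ring

/-- Two-sided linear control of the counting function. -/
def Tab (W : ℕ) (ρ h : ℝ) : Prop :=
  ∀ a : ℕ, (cop W 0 a : ℝ) ≤ ρ * a + h ∧ ρ * (a + 1) - h ≤ cop W 0 a

/-- The finite check: remaining steps `f`, position `a`, running count `C`. -/
def chk (W φ H : ℕ) : ℕ → ℕ → ℕ → Bool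
  | 0, _, C => Nat.beq C φ
  | f + 1, a, C => (Nat.ble (W * C) (φ * a + H) && Nat.ble (φ * (a + 1)) (W * C + H)) &&
      chk W φ H f (a + 1) (C + if Nat.gcd (a + 1) W = 1 then 1 else 0)

lemma chk_spec (W φ H : ℕ) : ∀ f a : ℕ, chk W φ H f a (cop W 0 a) = true →
    cop W 0 (a + f) = φ ∧ ∀ b, a ≤ b → b < a + f →
      W * cop W 0 b ≤ φ * b + H ∧ φ * (b + 1) ≤ W * cop W 0 b + H := by
  intro f
  induction f with
  | zero =>
    intro a h
    exact ⟨Nat.eq_of_beq_eq_true h, fun b h1 h2 => by omega⟩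
  | succ f ih =>
    intro a h
    simp only [chk, Bool.and_eq_true, Nat.ble_eq] at h
    rw [← cop_succ] at h
    obtain ⟨h1, h2⟩ := ih (a + 1) h.2
    refine ⟨by rw [← h1]; congr 1; ring, fun b hb1 hb2 => ?_⟩
    rcases Nat.eq_or_lt_of_le hb1 with rfl | hlt
    · exact h.1
    · exact h2 b hlt (by omega)

lemma tab_of_chk {W φ H : ℕ} (hW : 0 < W) (h : chk W φ H W 0 0 = true) :
    Tab W ((φ : ℝ) / W) ((H : ℝ) / W) := by
  have h' : chk W φ H W 0 (cop W 0 0) = true := by rw [cop_zero]; exact h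
  obtain ⟨h1, h2⟩ := chk_spec W φ H W 0 h'
  rw [zero_add] at h1
  have key : ∀ a, W * cop W 0 a ≤ φ * a + H ∧ φ * (a + 1) ≤ W * cop W 0 a + H := by
    intro a
    induction a using Nat.strong_induction_on with
    | _ a ih =>
      by_cases ha : a < W
      · exact h2 a (Nat.zero_le _) (by omega)
      · obtain ⟨b, rfl⟩ : ∃ b, a = b + W := ⟨a - W, by omega⟩
        obtain ⟨i1, i2⟩ := ih b (by omega)
        rw [cop_period, h1]
        constructor <;> nlinarith
  intro a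
  obtain ⟨k1, k2⟩ := key a
  have k1' : (W : ℝ) * cop W 0 a ≤ φ * a + H := by exact_mod_cast k1
  have k2' : (φ : ℝ) * (a + 1) ≤ W * cop W 0 a + H := by exact_mod_cast k2
  have hW' : (0 : ℝ) < W := by exact_mod_cast hW
  constructor
  · rw [div_mul_eq_mul_div, ← add_div, le_div_iff₀ hW']; linarith
  · rw [div_mul_eq_mul_div, ← sub_div, div_le_iff₀ hW']; linarith

lemma tab6 : Tab 6 (1 / 3) (2 / 3) := by
  have := tab_of_chk (W := 6) (φ := 2) (H := 4) (by norm_num) (by decide +kernel)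
  norm_num at this; exact this

lemma tab210 : Tab 210 (8 / 35) (53 / 35) := by
  have := tab_of_chk (W := 210) (φ := 48) (H := 318) (by norm_num) (by decide +kernel)
  norm_num at this; exact this

lemma tab2310 : Tab 2310 (16 / 77) (194 / 77) := by
  have := tab_of_chk (W := 2310) (φ := 480) (H := 5820) (by norm_num) (by decide +kernel)
  norm_num at this; exact this

lemma Tab.cop_le {W : ℕ} {ρ h : ℝ} (hT : Tab W ρ h) {A B : ℕ} (hAB : A ≤ B) :
    (cop W A B : ℝ) ≤ ρ * ((B : ℝ) - A - 1) + 2 * h := by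
  have h1 : (cop W 0 A : ℝ) + cop W A B = cop W 0 B := by exact_mod_cast cop_add W hAB
  have h2 := (hT A).2
  have h3 := (hT B).1
  linarith

lemma Tab.real {W : ℕ} {ρ h : ℝ} (hT : Tab W ρ h) (hρ : 0 ≤ ρ) (A : ℕ) {q : ℕ} (hq : 0 < q) :
    |(cop W 0 (A / q) : ℝ) - ρ * (A / q)| ≤ h := by
  have hq' : (0 : ℝ) < q := by exact_mod_cast hq
  have h1 : ((A / q : ℕ) : ℝ) ≤ (A : ℝ) / q := Nat.cast_div_le
  have h2 : (A : ℝ) / q ≤ ((A / q : ℕ) : ℝ) + 1 := by
    rw [div_le_iff₀ hq']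
    have : A < (A / q + 1) * q := by
      have h5 := Nat.div_add_mod A q
      have h6 := Nat.mod_lt A hq
      nlinarith
    exact_mod_cast this.le
  have h3 := (hT (A / q)).1
  have h4 := (hT (A / q)).2
  rw [abs_le]
  constructor <;> nlinarith [mul_le_mul_of_nonneg_left h1 hρ, mul_le_mul_of_nonneg_left h2 hρ]

lemma Tab.abs_le {W : ℕ} {ρ h : ℝ} (hT : Tab W ρ h) (hρ : 0 ≤ ρ) {A B : ℕ} (hAB : A ≤ B) {q : ℕ}
    (hq : 0 < q) : |(cop W (A / q) (B / q) : ℝ) - ρ * ((B : ℝ) - A) / q| ≤ 2 * h := by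
  have h1 : (cop W 0 (A / q) : ℝ) + cop W (A / q) (B / q) = cop W 0 (B / q) := by
    exact_mod_cast cop_add W (Nat.div_le_div_right hAB)
  have h2 := _root_.abs_le.1 (hT.real hρ A hq)
  have h3 := _root_.abs_le.1 (hT.real hρ B hq)
  have h4 : ρ * ((B : ℝ) - A) / q = ρ * (B / q) - ρ * (A / q) := by ring
  rw [_root_.abs_le, h4]
  constructor <;> linarith [h2.1, h2.2, h3.1, h3.2]

end Pool.Agent.P.MP_26a8c3_nt.HybS
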