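import Pool.Agent.P.MP_26a8c3_nt.HybS.Primes

/-! Explicit numerical bounds for the modulus 210. -/

namespace Pool.Agent.P.MP_26a8c3_nt.HybS

open Finset

lemma HH_succ (W n : ℕ) :
    HH W (n + 1) = HH W n + if Nat.gcd (n + 1) W = 1 then ((n : ℝ) + 1)⁻¹ else 0 := by
  unfold HH
  rw [← Finset.insert_Ioc_right_eq_Ioc_add_one (Nat.zero_le n), Finset.filter_insert]
  by_cases h : Nat.gcd (n + 1) W = 1
  · rw [if_pos h, if_pos h, Finset.sum_insert (by simp), add_comm]; push_cast; rfl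
  · rw [if_neg h, if_neg h, add_zero]

lemma HH_ge {W : ℕ} {ρ h : ℝ} (hT : Tab W ρ h) (hρ : 0 ≤ ρ) (N n : ℕ) (hn : N ≤ n) :
    HH W N - cop W 0 N / (N + 1) + ρ - ρ * Real.log (N + 1) - h / (N + 1)
      + ρ * Real.log (n + 1) ≤ HH W n := by
  have key : HH W N - cop W 0 N / (N + 1) - ρ * Real.log (N + 1) - h / (N + 1) ≤
      HH W n - cop W 0 n / (n + 1) - ρ * Real.log (n + 1) - h / (n + 1) := by
    induction n, hn using Nat.le_induction with
    | base => exact le_rfl
    | succ n _ ih =>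
      refine ih.trans ?_
      have hn1 : (0 : ℝ) < n + 1 := by positivity
      have h1 : HH W (n + 1) - cop W 0 (n + 1) / (n + 1) = HH W n - cop W 0 n / (n + 1) := by
        rw [HH_succ, cop_succ]
        split_ifs <;> push_cast <;> field_simp <;> ring
      have h2 := (hT (n + 1)).2
      have h3 : Real.log ((n : ℝ) + 1 + 1) - Real.log (n + 1) ≤ 1 / (n + 1) := by
        rw [← Real.log_div (by positivity) hn1.ne']
        refine (Real.log_le_sub_one_of_pos (by positivity)).trans (le_of_eq ?_)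
        field_simp; ring
      push_cast at h2 ⊢
      set C : ℝ := ((cop W 0 (n + 1) : ℕ) : ℝ)
      have h4 : C / (n + 1) - C / (n + 1 + 1) ≥ ρ * (1 / (n + 1)) - h / (n + 1) + h / (n + 1 + 1) := by
        have e1 : C / (n + 1) - C / (n + 1 + 1) = C / ((n + 1) * (n + 1 + 1)) := by
          field_simp; ring
        have e2 : ρ * (1 / (n + 1)) - h / (n + 1) + h / (n + 1 + 1)
            = (ρ * (n + 1 + 1) - h) / ((n + 1) * (n + 1 + 1)) := by
          field_simp; ring
        rw [e1, e2]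
        exact div_le_div_of_nonneg_right h2 (by positivity)
      nlinarith [mul_le_mul_of_nonneg_left h3 hρ]
  have hn1 : (0 : ℝ) < n + 1 := by positivity
  have h5 : ρ - h / (n + 1) ≤ cop W 0 n / (n + 1) := by
    rw [le_div_iff₀ hn1, sub_mul, div_mul_cancel₀ _ hn1.ne']
    exact (hT n).2
  linarith

lemma HH_rat (W z : ℕ) (q : ℚ)
    (h : q ≤ ∑ n ∈ (Finset.Ioc 0 z).filter fun n => Nat.Coprime n W, (n : ℚ)⁻¹) :
    (q : ℝ) ≤ HH W z := by
  have : (q : ℝ) ≤ ((∑ n ∈ (Finset.Ioc 0 z).filter fun n => Nat.Coprime n W, (n : ℚ)⁻¹ : ℚ) : ℝ) := by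
    exact_mod_cast h
  rw [Rat.cast_sum] at this
  simpa [HH] using this

lemma HH19 : (1279 / 1000 : ℝ) ≤ HH 210 19 := by
  have := HH_rat 210 19 (1279 / 1000) (by decide +kernel)
  simpa using this

lemma HH60 : (1521 / 1000 : ℝ) ≤ HH 210 60 := by
  have := HH_rat 210 60 (1521 / 1000) (by decide +kernel)
  simpa using this

lemma HH200 : (1799 / 1000 : ℝ) ≤ HH 210 200 := by
  have := HH_rat 210 200 (1799 / 1000) (by decide +kernel)
  simpa using this

lemma HH209 : (1804 / 1000 : ℝ) ≤ HH 210 209 := by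
  have := HH_rat 210 209 (1804 / 1000) (by decide +kernel)
  simpa using this

lemma HH210_ge {n : ℕ} (hn : 209 ≤ n) :
    8 / 35 * (Real.log (n + 1) + 2485 / 1000) ≤ HH 210 n := by
  have h1 := HH_ge tab210 (by norm_num) 209 n hn
  have h2 : cop 210 0 209 = 48 := by unfold cop; decide +kernel
  have h3 := HH209
  have h4 : Real.log 210 ≤ 3 * Real.log 2 + 3 * Real.log 3 := by
    have : Real.log 216 = 3 * Real.log 2 + 3 * Real.log 3 := by
      rw [show (216 : ℝ) = 2 ^ 3 * 3 ^ 3 by norm_num, Real.log_mul (by norm_num) (by norm_num),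
        Real.log_pow, Real.log_pow]
      norm_num
    rw [← this]
    exact Real.log_le_log (by norm_num) (by norm_num)
  have h5 := Real.log_two_lt_d9
  have h6 := Real.log_three_lt_d9
  rw [h2] at h1
  norm_num at h1
  linarith

lemma K_le (z : ℕ) : ∏ p ∈ QQ 210 z, (1 + 2 / ((p : ℝ) * (p - 1))) ≤ 1077 / 1000 := by
  set F : ℕ → ℝ := fun z => ∏ p ∈ (Finset.Ioc 1 z).filter fun n => Nat.Coprime n 210,
    (1 + 2 / ((p : ℝ) * (p - 1))) with hF
  have hone : ∀ p : ℕ, 1 < p → (1 : ℝ) ≤ 1 + 2 / ((p : ℝ) * (p - 1)) := by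
    intro p hp
    have : (1 : ℝ) < p := by exact_mod_cast hp
    have : (0 : ℝ) ≤ 2 / ((p : ℝ) * (p - 1)) := div_nonneg (by norm_num) (by nlinarith)
    linarith
  have h200 : F 200 ≤ 10662 / 10000 := by
    have h : (∏ p ∈ (Finset.Ioc 1 200).filter fun n => Nat.Coprime n 210,
      (1 + 2 / ((p : ℚ) * (p - 1)))) ≤ 10662 / 10000 := by decide +kernel
    have h' : ((∏ p ∈ (Finset.Ioc 1 200).filter fun n => Nat.Coprime n 210,
      (1 + 2 / ((p : ℚ) * (p - 1))) : ℚ) : ℝ) ≤ ((10662 / 10000 : ℚ) : ℝ) := by exact_mod_cast h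
    rw [Rat.cast_prod] at h'
    push_cast at h'
    exact h'
  have hind : ∀ n, 200 ≤ n → F n * ((n + 1) / (n - 1)) ≤ F 200 * (201 / 199) := by
    intro n hn
    induction n, hn using Nat.le_induction with
    | base => norm_num
    | succ n hn ih =>
      refine le_trans ?_ ih
      have hn' : (200 : ℝ) ≤ n := by exact_mod_cast hn
      have hF0 : 0 ≤ F n := Finset.prod_nonneg fun p hp =>
        zero_le_one.trans (hone p (Finset.mem_Ioc.1 (Finset.mem_filter.1 hp).1).1)
      have h1 : F (n + 1) ≤ F n * (1 + 2 / (((n : ℝ) + 1) * n)) := by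
        simp only [hF]
        rw [← Finset.insert_Ioc_right_eq_Ioc_add_one (by omega), Finset.filter_insert]
        split_ifs
        · rw [Finset.prod_insert (by simp), mul_comm]
          push_cast
          rw [add_sub_cancel_right]
        · exact le_mul_of_one_le_right hF0 (by
            have : (0 : ℝ) ≤ 2 / (((n : ℝ) + 1) * n) := by positivity
            linarith)
      push_cast
      rw [add_sub_cancel_right]
      refine (mul_le_mul_of_nonneg_right h1 (by positivity)).trans ?_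
      rw [mul_assoc]
      refine mul_le_mul_of_nonneg_left ?_ hF0
      have h2 : (0 : ℝ) < n - 1 := by linarith
      have h3 : (0 : ℝ) < n := by linarith
      rw [le_div_iff₀ h2]
      have : (1 + 2 / (((n : ℝ) + 1) * n)) * ((n + 1 + 1) / n) * (n - 1)
          = ((n + 1) * n + 2) * (n + 2) * (n - 1) / ((n + 1) * n * n) := by
        field_simp; ring
      rw [this, div_le_iff₀ (by positivity)]
      nlinarith
  have hmono : ∏ p ∈ QQ 210 z, (1 + 2 / ((p : ℝ) * (p - 1))) ≤ F (max z 200) := by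
    refine Finset.prod_le_prod_of_subset_of_one_le (fun p hp => ?_) (fun p hp => ?_) fun p hp _ => ?_
    · exact Finset.mem_filter.2 ⟨Finset.mem_Ioc.2 ⟨(QQ_prop p hp).1.one_lt,
        (Finset.mem_Ioc.1 (Finset.mem_filter.1 hp).1).2.trans (le_max_left _ _)⟩, (QQ_prop p hp).2⟩
    · exact zero_le_one.trans (hone p (QQ_prop p hp).1.one_lt)
    · exact hone p (Finset.mem_Ioc.1 (Finset.mem_filter.1 hp).1).1
  have h1 := hind (max z 200) (le_max_right _ _)
  have h2 : (200 : ℝ) ≤ (max z 200 : ℕ) := by exact_mod_cast le_max_right _ _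
  have hF0 : 0 ≤ F (max z 200) := Finset.prod_nonneg fun p hp =>
    zero_le_one.trans (hone p (Finset.mem_Ioc.1 (Finset.mem_filter.1 hp).1).1)
  have h3 : F (max z 200) ≤ F (max z 200) * ((((max z 200 : ℕ) : ℝ) + 1) / ((max z 200 : ℕ) - 1)) :=
    le_mul_of_one_le_right hF0 (by rw [le_div_iff₀ (by linarith)]; linarith)
  linarith

lemma sel_bound {k l : ℕ} {x y : ℝ} {A : Finset ℕ} (hA : Good k l x y A) (hk : 0 < k) (hy : 0 ≤ y)
    {z : ℕ} (hz : 7 ≤ z) {H Sg : ℝ} (hH0 : 0 < H) (hH : H ≤ HH 210 z)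
    (hS : 306 / 1000 * z + 53 / 35 ≤ Sg) :
    (A.card : ℝ) * Nat.totient k ≤
      k * (8 / 35 / H * (y / k) + (z + 8 / 35 / H + 106 / 35 * Sg ^ 2 / H ^ 2)) := by
  have hS' : cop 210 0 z + z * (∏ p ∈ QQ 210 z, (1 + 2 / ((p : ℝ) * (p - 1))) - 1) ≤ Sg := by
    have h1 := (tab210 z).1
    have h2 := K_le z
    have h3 : (0 : ℝ) ≤ z := Nat.cast_nonneg _
    nlinarith [mul_le_mul_of_nonneg_left h2 h3]
  have := gen_bound hA hk (squarefree_sift (W := 210) (by decide +kernel) z) (E := Finset.Ioc 0 z)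
    (Bd := 8 / 35 * (y / k + 1) / H + 2 * (53 / 35) * Sg ^ 2 / H ^ 2)
    (sift_primes z fun p hp hd => by
      have h1 : p ∈ (210 : ℕ).primeFactors := Nat.mem_primeFactors.2 ⟨hp, hd, by norm_num⟩
      have h2 : (210 : ℕ).primeFactors = {2, 3, 5, 7} := by decide +kernel
      rw [h2] at h1
      simp only [Finset.mem_insert, Finset.mem_singleton] at h1
      omega)
    (fun A B hAB hlt => (selB tab210 (by norm_num) hH0 hH hS' hAB).trans (by
      have : 8 / 35 * ((B : ℝ) - A) / H ≤ 8 / 35 * (y / k + 1) / H :=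
        div_le_div_of_nonneg_right (by linarith) hH0.le
      linarith)) (by positivity)
  refine this.trans (le_of_eq ?_)
  rw [Nat.card_Ioc, Nat.sub_zero]
  ring

end Pool.Agent.P.MP_26a8c3_nt.HybS
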