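import Pool.Agent.P.MP_26a8c3_nt.HybS.SelB

/-! From sieve bounds to bounds for primes in a progression and an interval. -/

namespace Pool.Agent.P.MP_26a8c3_nt.HybS

open Finset

/-- A finite set of primes in a class modulo `k` and in `(x - y, x]`. -/
def Good (k l : ℕ) (x y : ℝ) (A : Finset ℕ) : Prop :=
  ∀ p ∈ A, p.Prime ∧ p ≡ l [MOD k] ∧ x - y < p ∧ (p : ℝ) ≤ x

lemma gen_bound {k l : ℕ} {x y : ℝ} {A : Finset ℕ} (hA : Good k l x y A) (hk : 0 < k) {P : ℕ}
    (hP : Squarefree P) {E : Finset ℕ} (hE : ∀ p : ℕ, p.Prime → p ∣ P → p ∈ E) {Bd : ℝ}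
    (hB : ∀ A B : ℕ, A ≤ B → (B : ℝ) - A < y / k + 1 → (cop P A B : ℝ) ≤ Bd) (hBd : 0 ≤ Bd) :
    (A.card : ℝ) * Nat.totient k ≤ k * (E.card + Bd) := by
  have hk' : (0 : ℝ) < k := by exact_mod_cast hk
  have h1 := reduce (l := l) hP hk (A.filter fun p => ¬ p ∣ P) (s := y / k) (fun p hp => by
    obtain ⟨a, b⟩ := Finset.mem_filter.1 hp
    exact ⟨(hA p a).2.1, (Nat.Prime.coprime_iff_not_dvd (hA p a).1).2 b⟩) (fun p hp p' hp' => by
    have a := (hA p (Finset.mem_filter.1 hp).1).2.2.1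
    have b := (hA p' (Finset.mem_filter.1 hp').1).2.2.2
    rw [mul_div_cancel₀ _ hk'.ne']
    linarith) hB hBd
  have h2 : (A.filter fun p => p ∣ P).card ≤ E.card := Finset.card_le_card fun p hp => by
    obtain ⟨a, b⟩ := Finset.mem_filter.1 hp
    exact hE p (hA p a).1 b
  have h3 : (A.card : ℝ) = (A.filter fun p => p ∣ P).card + (A.filter fun p => ¬ p ∣ P).card := by
    exact_mod_cast (Finset.card_filter_add_card_filter_not _).symm
  have h4 : (Nat.totient k : ℝ) ≤ k := by exact_mod_cast Nat.totient_le k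
  have h5 : ((A.filter fun p => p ∣ P).card : ℝ) ≤ E.card := by exact_mod_cast h2
  have h6 : (0 : ℝ) ≤ Nat.totient k := Nat.cast_nonneg _
  have h7 : (0 : ℝ) ≤ E.card := Nat.cast_nonneg _
  rw [h3]
  nlinarith [mul_le_mul_of_nonneg_right h5 h6, mul_le_mul_of_nonneg_left h4 h7]

lemma lin_bound {k l : ℕ} {x y : ℝ} {A : Finset ℕ} (hA : Good k l x y A) (hk : 0 < k) (hy : 0 ≤ y)
    {W : ℕ} (hW : Squarefree W) {ρ h : ℝ} (hT : Tab W ρ h) (hρ : 0 ≤ ρ) :
    (A.card : ℝ) * Nat.totient k ≤ k * (ρ * (y / k) + (W.primeFactors.card + 2 * h)) := by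
  have hh : 0 ≤ h := by simpa [cop_zero] using (hT 0).1
  have := gen_bound hA hk hW (E := W.primeFactors) (Bd := ρ * (y / k) + 2 * h)
    (fun p hp hd => Nat.mem_primeFactors.2 ⟨hp, hd, hW.ne_zero⟩)
    (fun A B hAB hlt => (hT.cop_le hAB).trans (by
      have : ρ * ((B : ℝ) - A - 1) ≤ ρ * (y / k) := mul_le_mul_of_nonneg_left (by linarith) hρ
      linarith)) (by positivity)
  refine this.trans (le_of_eq ?_)
  ring

lemma squarefree_sift {W : ℕ} (hW : Squarefree W) (z : ℕ) : Squarefree (W * ∏ p ∈ QQ W z, p) := by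
  rw [Nat.squarefree_mul_iff]
  refine ⟨(Nat.Coprime.prod_left fun p hp => (QQ_prop p hp).2).symm, hW, ?_⟩
  refine Finset.squarefree_prod_of_pairwise_isCoprime (fun p hp q hq hpq => ?_)
    fun p hp => (QQ_prop p hp).1.squarefree
  exact Nat.coprime_iff_isRelPrime.1
    ((Nat.coprime_primes (QQ_prop p hp).1 (QQ_prop q hq).1).2 hpq)

lemma sift_primes {W : ℕ} (z : ℕ) (hz : ∀ p : ℕ, p.Prime → p ∣ W → p ≤ z) (p : ℕ) (hp : p.Prime)
    (hd : p ∣ W * ∏ p ∈ QQ W z, p) : p ∈ Finset.Ioc 0 z := by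
  rcases (Nat.Prime.dvd_mul hp).1 hd with h | h
  · exact Finset.mem_Ioc.2 ⟨hp.pos, hz p hp h⟩
  · obtain ⟨q, hq, hpq⟩ := (Prime.dvd_finsetProd_iff hp.prime _).1 h
    rw [(Nat.prime_dvd_prime_iff_eq hp (QQ_prop q hq).1).1 hpq]
    exact (Finset.mem_filter.1 hq).1

lemma six_aux {k l : ℕ} (hk : 0 < k) (T : Finset ℕ)
    (hT : ∀ p ∈ T, p ≡ l [MOD k] ∧ Nat.Coprime p 6) {s : ℝ}
    (hdiam : ∀ p ∈ T, ∀ p' ∈ T, (p' : ℝ) - p < k * s) (v : ℕ) (hv : s ≤ 3 * v - 1) :
    (T.card : ℝ) * Nat.totient k ≤ k * v := by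
  refine reduce (by decide +kernel) hk T hT hdiam (fun A B hAB hlt => ?_) (Nat.cast_nonneg _)
  have h1 := tab6.cop_le hAB
  have h2 : (cop 6 A B : ℝ) < v + 1 := by linarith
  have h3 : cop 6 A B < v + 1 := by exact_mod_cast h2
  exact_mod_cast Nat.lt_succ_iff.1 h3

lemma six {k l : ℕ} {x y : ℝ} {A : Finset ℕ} (hA : Good k l x y A) (hk : 0 < k) :
    (y / k ≤ 3 → (A.card : ℝ) * Nat.totient k ≤ k * 2) ∧
    ∀ j : ℕ, y / k ≤ 3 * j + 2 → (A.card : ℝ) * Nat.totient k ≤ k * (j + 2) := by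
  have hk' : (0 : ℝ) < k := by exact_mod_cast hk
  have hφ : (Nat.totient k : ℝ) ≤ k := by exact_mod_cast Nat.totient_le k
  have hφ0 : (0 : ℝ) ≤ Nat.totient k := Nat.cast_nonneg _
  set T := A.filter fun p => Nat.Coprime p 6 with hTd
  have hT : ∀ p ∈ T, p ≡ l [MOD k] ∧ Nat.Coprime p 6 := fun p hp =>
    ⟨(hA p (Finset.mem_filter.1 hp).1).2.1, (Finset.mem_filter.1 hp).2⟩
  have hT5 : ∀ p ∈ T, 5 ≤ p := by
    intro p hp
    have h1 := (hA p (Finset.mem_filter.1 hp).1).1.two_le
    have h2 := (hT p hp).2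
    by_contra h
    have : p ≤ 4 := by omega
    interval_cases p <;> simp_all (config := {decide := true})
  have hTx : ∀ p ∈ T, (p : ℝ) ≤ x := fun p hp => (hA p (Finset.mem_filter.1 hp).1).2.2.2
  have hmem : ∀ p ∈ A, p = 2 ∨ p = 3 ∨ p ∈ T := by
    intro p hp
    by_cases h : p ∣ 6
    · have h1 := (hA p hp).1
      have h2 : p ∣ 2 * 3 := h
      rcases (Nat.Prime.dvd_mul h1).1 h2 with h | h
      · exact Or.inl ((Nat.prime_dvd_prime_iff_eq h1 Nat.prime_two).1 h)
      · exact Or.inr (Or.inl ((Nat.prime_dvd_prime_iff_eq h1 Nat.prime_three).1 h))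
    · exact Or.inr (Or.inr (Finset.mem_filter.2
        ⟨hp, (Nat.Prime.coprime_iff_not_dvd (hA p hp).1).2 h⟩))
  have hyk : k * (y / k) = y := mul_div_cancel₀ _ hk'.ne'
  have one : ∀ q ∈ A, q ≤ 3 → A ⊆ insert q T → ∀ v : ℕ, y / k ≤ 3 * v →
      (A.card : ℝ) * Nat.totient k ≤ k * (v + 1) := by
    intro q hq hq3 hsub v hv
    have h1 := six_aux hk T hT (s := y / k - 1) (fun p hp p' hp' => by
      have a : q ≡ p [MOD k] := (hA q hq).2.1.trans (hT p hp).1.symm
      have b : q + k ≤ p := by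
        have := hT5 p hp
        have h2 : k ∣ p - q := (Nat.modEq_iff_dvd' (by omega)).1 a
        have := Nat.le_of_dvd (by omega) h2
        omega
      have b' : (q : ℝ) + k ≤ p := by exact_mod_cast b
      have c := (hA q hq).2.2.1
      have d := hTx p' hp'
      rw [mul_sub, hyk]
      linarith) v (by linarith)
    have h2 : (A.card : ℝ) ≤ T.card + 1 := by
      exact_mod_cast (Finset.card_le_card hsub).trans (Finset.card_insert_le _ _)
    nlinarith [mul_le_mul_of_nonneg_right h2 hφ0]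
  by_cases h2 : 2 ∈ A <;> by_cases h3 : 3 ∈ A
  · have hk1 : k = 1 := by
      have a : 2 ≡ 3 [MOD k] := (hA 2 h2).2.1.trans (hA 3 h3).2.1.symm
      exact Nat.dvd_one.1 ((Nat.modEq_iff_dvd' (by norm_num)).1 a)
    subst hk1
    have hc : (A.card : ℝ) ≤ T.card + 2 := by
      have : A ⊆ insert 2 (insert 3 T) := fun p hp => by
        simpa only [Finset.mem_insert] using hmem p hp
      have h4 := Finset.card_le_card this
      have h5 := Finset.card_insert_le 2 (insert 3 T)
      have h6 := Finset.card_insert_le 3 T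
      exact_mod_cast (by omega : A.card ≤ T.card + 2)
    have hx : x - y < 2 := by exact_mod_cast (hA 2 h2).2.2.1
    simp only [Nat.cast_one, div_one, Nat.totient_one, mul_one, one_mul]
    constructor
    · intro hy
      have : T = ∅ := by
        refine Finset.eq_empty_of_forall_notMem fun p hp => ?_
        have a : (5 : ℝ) ≤ p := by exact_mod_cast hT5 p hp
        have b := hTx p hp
        linarith
      rw [this] at hc
      simpa using hc
    · intro j hj
      have h1 := six_aux hk T hT (s := y - 3) (fun p hp p' hp' => by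
        have a : (5 : ℝ) ≤ p := by exact_mod_cast hT5 p hp
        have b := hTx p' hp'
        simp only [Nat.cast_one, one_mul]
        linarith) j (by linarith)
      simp only [Nat.cast_one, Nat.totient_one, mul_one, one_mul] at h1
      linarith
  · have hsub : A ⊆ insert 2 T := fun p hp => by
      rcases hmem p hp with rfl | rfl | h
      · exact Finset.mem_insert_self _ _
      · exact absurd hp h3
      · exact Finset.mem_insert_of_mem h
    refine ⟨fun hy => ?_, fun j hj => ?_⟩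
    · have := one 2 h2 (by norm_num) hsub 1 (by simpa using hy)
      norm_num at this; exact this
    · have := one 2 h2 (by norm_num) hsub (j + 1) (by push_cast; linarith)
      push_cast at this; linarith
  · have hsub : A ⊆ insert 3 T := fun p hp => by
      rcases hmem p hp with rfl | rfl | h
      · exact absurd hp h2
      · exact Finset.mem_insert_self _ _
      · exact Finset.mem_insert_of_mem h
    refine ⟨fun hy => ?_, fun j hj => ?_⟩
    · have := one 3 h3 (by norm_num) hsub 1 (by simpa using hy)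
      norm_num at this; exact this
    · have := one 3 h3 (by norm_num) hsub (j + 1) (by push_cast; linarith)
      push_cast at this; linarith
  · have hsub : A ⊆ T := fun p hp => by
      rcases hmem p hp with rfl | rfl | h
      · exact absurd hp h2
      · exact absurd hp h3
      · exact h
    have hc : (A.card : ℝ) ≤ T.card := by exact_mod_cast Finset.card_le_card hsub
    have h0 : ∀ v : ℕ, y / k ≤ 3 * v - 1 → (A.card : ℝ) * Nat.totient k ≤ k * v := by
      intro v hv
      refine (mul_le_mul_of_nonneg_right hc hφ0).trans (six_aux hk T hT (s := y / k) ?_ v hv)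
      intro p hp p' hp'
      have a := (hA p (Finset.mem_filter.1 hp).1).2.2.1
      have b := hTx p' hp'
      rw [hyk]
      linarith
    refine ⟨fun hy => ?_, fun j hj => ?_⟩
    · simpa using h0 2 (by push_cast; linarith)
    · simpa using h0 (j + 2) (by push_cast; linarith)

lemma six_lin {k l : ℕ} {x y : ℝ} {A : Finset ℕ} (hA : Good k l x y A) (hk : 0 < k)
    (ht : 2 ≤ y / k) : (A.card : ℝ) * Nat.totient k ≤ k * (1 / 3 * (y / k) + 7 / 3) := by
  have h0 : 0 ≤ (y / k - 2) / 3 := by linarith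
  have h1 := Nat.le_ceil ((y / k - 2) / 3)
  have h2 := Nat.ceil_lt_add_one h0
  refine ((six hA hk).2 ⌈(y / k - 2) / 3⌉₊ (by linarith)).trans ?_
  exact mul_le_mul_of_nonneg_left (by linarith) (Nat.cast_nonneg _)

end Pool.Agent.P.MP_26a8c3_nt.HybS
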