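import Mathlib

/-! Reduction of primes in a progression to integers coprime to a squarefree modulus in an
interval, by averaging over shifts. -/

namespace Pool.Agent.P.MP_26a8c3_nt.HybS

open Finset

/-- The number of integers in `(A, B]` coprime to `P`. -/
def cop (P A B : ℕ) : ℕ := ((Finset.Ioc A B).filter fun m => Nat.Coprime m P).card

lemma card_affine {a b : ℕ} (hab : Nat.Coprime a b) (hb : 0 < b) (u : ℕ) :
    ((Finset.range b).filter fun j => Nat.Coprime (u + a * j) b).card = Nat.totient b := by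
  set f : ℕ → ℕ := fun j => (u + a * j) % b with hf
  have hinj : Set.InjOn f (Finset.range b : Set ℕ) := by
    intro i hi j hj h
    have h1 : u + a * i ≡ u + a * j [MOD b] := h
    have h2 : i ≡ j [MOD b] := Nat.ModEq.cancel_left_of_coprime hab.symm (Nat.ModEq.add_left_cancel' u h1)
    exact Nat.ModEq.eq_of_lt_of_lt h2 (by simpa using hi) (by simpa using hj)
  have himg : (Finset.range b).image f = Finset.range b := by
    apply Finset.eq_of_subset_of_card_le
    · intro v hv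
      obtain ⟨j, -, rfl⟩ := Finset.mem_image.1 hv
      exact Finset.mem_range.2 (Nat.mod_lt _ hb)
    · rw [Finset.card_image_of_injOn hinj]
  rw [Nat.totient_eq_card_coprime]
  conv_rhs => rw [← himg, Finset.filter_image]
  rw [Finset.card_image_of_injOn (hinj.mono (by intro j hj; exact (Finset.mem_filter.1 hj).1))]
  congr 1
  refine Finset.filter_congr fun j _ => ?_
  simp only [hf, Nat.Coprime]
  rw [Nat.gcd_comm b, ← Nat.gcd_rec, Nat.gcd_comm]

lemma totient_mul_le {d k : ℕ} (hd : d ∣ k) (hk : 0 < k) :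
    (Nat.totient k : ℝ) * d ≤ Nat.totient d * k := by
  have h : (Nat.totient k : ℚ) * d ≤ Nat.totient d * k := by
    rw [Nat.totient_eq_mul_prod_factors, Nat.totient_eq_mul_prod_factors]
    have hsub : d.primeFactors ⊆ k.primeFactors := Nat.primeFactors_mono hd hk.ne'
    have h01 : ∀ p ∈ k.primeFactors, (0 : ℚ) ≤ 1 - (p : ℚ)⁻¹ := by
      intro p hp
      have : (1 : ℚ) ≤ p := by exact_mod_cast (Nat.prime_of_mem_primeFactors hp).one_le
      exact sub_nonneg.2 (inv_le_one_of_one_le₀ this)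
    have h1 : ∏ p ∈ k.primeFactors, (1 - (p : ℚ)⁻¹) ≤ ∏ p ∈ d.primeFactors, (1 - (p : ℚ)⁻¹) :=
      Finset.prod_le_prod_of_subset_of_le_one hsub h01 fun p _ _ => by
        have : (0 : ℚ) ≤ (p : ℚ)⁻¹ := by positivity
        linarith
    have h2 : (0 : ℚ) ≤ (k : ℚ) * d := by positivity
    nlinarith [mul_le_mul_of_nonneg_left h1 h2]
  exact_mod_cast h

/-- Averaging over shifts. -/
lemma reduce {P k l : ℕ} (hP : Squarefree P) (hk : 0 < k) (T : Finset ℕ)
    (hT : ∀ p ∈ T, p ≡ l [MOD k] ∧ Nat.Coprime p P) {s Bd : ℝ}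
    (hdiam : ∀ p ∈ T, ∀ p' ∈ T, (p' : ℝ) - p < k * s)
    (hB : ∀ A B : ℕ, A ≤ B → (B : ℝ) - A < s + 1 → (cop P A B : ℝ) ≤ Bd) (hBd : 0 ≤ Bd) :
    (T.card : ℝ) * Nat.totient k ≤ k * Bd := by
  rcases T.eq_empty_or_nonempty with rfl | hne
  · simp only [Finset.card_empty, Nat.cast_zero, zero_mul]; positivity
  have hP0 : 0 < P := Nat.pos_of_ne_zero hP.ne_zero
  set P₂ := Nat.gcd P k with hP₂
  set P₁ := P / P₂ with hP₁
  have hP₂0 : 0 < P₂ := Nat.gcd_pos_of_pos_left _ hP0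
  have hmul : P₁ * P₂ = P := Nat.div_mul_cancel (Nat.gcd_dvd_left _ _)
  have hP₁0 : 0 < P₁ := Nat.pos_of_mul_pos_right (hmul ▸ hP0)
  have hcop : Nat.Coprime P₁ k := Nat.coprime_div_gcd_of_squarefree hP hk.ne'
  have h12 : Nat.Coprime P₁ P₂ := hcop.coprime_dvd_right (Nat.gcd_dvd_right _ _)
  obtain ⟨c, -, hc⟩ := Nat.exists_mul_mod_eq_of_coprime (l % k) hcop.symm hP₁0.ne'
  have hrep : ∀ p ∈ T, p = k * (p / k) + l % k := by
    intro p hp
    have h1 : p % k = l % k := (hT p hp).1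
    rw [← h1, Nat.div_add_mod]
  have hco1 : ∀ p ∈ T, ∀ j, Nat.Coprime (p / k + c + P₁ + P₁ * j) P₁ := by
    intro p hp j
    have h1 : Nat.Coprime p P₁ := (hT p hp).2.coprime_dvd_right ⟨P₂, hmul.symm⟩
    have h2 : k * (p / k + c + P₁ + P₁ * j) ≡ p [MOD P₁] := by
      have h3 : k * c ≡ l % k [MOD P₁] := hc
      have h4 : k * (p / k + c + P₁ + P₁ * j) = k * (p / k) + k * c + P₁ * (k * (1 + j)) := by ring
      rw [h4]
      conv_rhs => rw [hrep p hp, ← add_zero (k * (p / k) + l % k)]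
      exact ((Nat.ModEq.refl _).add h3).add (Nat.modEq_zero_iff_dvd.2 (Dvd.intro _ rfl))
    have h5 : Nat.Coprime (k * (p / k + c + P₁ + P₁ * j)) P₁ := by
      unfold Nat.Coprime; rw [h2.gcd_eq]; exact h1
    exact h5.coprime_mul_left
  set p₀ := T.min' hne
  set p₁ := T.max' hne
  have hp₀ : p₀ ∈ T := T.min'_mem hne
  have hp₁ : p₁ ∈ T := T.max'_mem hne
  have hk' : (0 : ℝ) < k := by exact_mod_cast hk
  have hle : p₀ / k ≤ p₁ / k := Nat.div_le_div_right (T.min'_le _ hp₁)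
  have hlen : ((p₁ / k : ℕ) : ℝ) - (p₀ / k : ℕ) < s := by
    have h1 := hdiam p₀ hp₀ p₁ hp₁
    have h2 : (p₀ : ℝ) = k * (p₀ / k : ℕ) + (l % k : ℕ) := by exact_mod_cast hrep p₀ hp₀
    have h3 : (p₁ : ℝ) = k * (p₁ / k : ℕ) + (l % k : ℕ) := by exact_mod_cast hrep p₁ hp₁
    rw [h2, h3] at h1
    have : (k : ℝ) * (((p₁ / k : ℕ) : ℝ) - (p₀ / k : ℕ)) < k * s := by linarith
    exact lt_of_mul_lt_mul_left this hk'.le
  have hj : ∀ j, ((T.filter fun p => Nat.Coprime (p / k + c + P₁ + P₁ * j) P₂).card : ℝ) ≤ Bd := by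
    intro j
    obtain ⟨e, he⟩ : ∃ e, c + P₁ + P₁ * j = e + 1 := ⟨c + P₁ + P₁ * j - 1, by omega⟩
    refine le_trans ?_ (hB (p₀ / k + e) (p₁ / k + e + 1) (by omega) (by push_cast; linarith))
    unfold cop
    have : (T.filter fun p => Nat.Coprime (p / k + c + P₁ + P₁ * j) P₂).card
        ≤ ((Finset.Ioc (p₀ / k + e) (p₁ / k + e + 1)).filter fun m => Nat.Coprime m P).card := by
      refine Finset.card_le_card_of_injOn (fun p => p / k + c + P₁ + P₁ * j) ?_ ?_
      · intro p hp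
        obtain ⟨hpT, hp2⟩ := Finset.mem_filter.1 (Finset.mem_coe.1 hp)
        have a1 : p₀ / k ≤ p / k := Nat.div_le_div_right (T.min'_le _ hpT)
        have a2 : p / k ≤ p₁ / k := Nat.div_le_div_right (T.le_max' _ hpT)
        refine Finset.mem_coe.2 (Finset.mem_filter.2 ⟨Finset.mem_Ioc.2 ⟨by beta_reduce; omega, by beta_reduce; omega⟩, ?_⟩)
        rw [← hmul]
        exact Nat.Coprime.mul_right (hco1 p hpT j) hp2
      · intro p hp p' hp' h
        have hpT := (Finset.mem_filter.1 (Finset.mem_coe.1 hp)).1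
        have hpT' := (Finset.mem_filter.1 (Finset.mem_coe.1 hp')).1
        have : p / k = p' / k := by simp only at h; omega
        rw [hrep p hpT, hrep p' hpT', this]
    exact_mod_cast this
  have hsum : ∑ j ∈ Finset.range P₂,
      (T.filter fun p => Nat.Coprime (p / k + c + P₁ + P₁ * j) P₂).card
      = T.card * Nat.totient P₂ := by
    simp only [Finset.card_filter]
    rw [Finset.sum_comm]
    simp only [← Finset.card_filter, card_affine h12 hP₂0, Finset.sum_const, smul_eq_mul]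
  have h1 : (T.card : ℝ) * Nat.totient P₂ ≤ P₂ * Bd := by
    have : ((T.card * Nat.totient P₂ : ℕ) : ℝ) ≤ ∑ _j ∈ Finset.range P₂, Bd := by
      rw [← hsum, Nat.cast_sum]
      exact Finset.sum_le_sum fun j _ => hj j
    simpa using this
  have h2 := totient_mul_le (Nat.gcd_dvd_right P k) hk
  have hP₂' : (0 : ℝ) < P₂ := by exact_mod_cast hP₂0
  have hT0 : (0 : ℝ) ≤ T.card := Nat.cast_nonneg _
  have h3 : P₂ * ((T.card : ℝ) * Nat.totient k) ≤ P₂ * (k * Bd) := by
    nlinarith [mul_le_mul_of_nonneg_left h2 hT0, mul_le_mul_of_nonneg_left h1 hk'.le]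
  exact le_of_mul_le_mul_left h3 hP₂'

end Pool.Agent.P.MP_26a8c3_nt.HybS
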