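import Pool.Agent.P.MP_26a8c3_nt.HybS.Selberg

/-! The classical Selberg weights and explicit bounds for them. -/

namespace Pool.Agent.P.MP_26a8c3_nt.HybS

open Finset

/-- Sifting primes. -/
def QQ (W z : ℕ) : Finset ℕ := (Finset.Ioc 0 z).filter fun p => p.Prime ∧ Nat.Coprime p W

/-- Sets of sifting primes with product at most `z`. -/
def LL (W z : ℕ) : Finset (Finset ℕ) := (QQ W z).powerset.filter fun U => ∏ p ∈ U, p ≤ z

lemma QQ_prop {W z : ℕ} : ∀ p ∈ QQ W z, p.Prime ∧ Nat.Coprime p W :=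
  fun _ hp => (Finset.mem_filter.1 hp).2

lemma LL_sub {W z : ℕ} : ∀ U ∈ LL W z, U ⊆ QQ W z :=
  fun _ hU => Finset.mem_powerset.1 (Finset.mem_filter.1 hU).1

lemma LL_le {W z : ℕ} : ∀ U ∈ LL W z, ∏ p ∈ U, p ≤ z :=
  fun _ hU => (Finset.mem_filter.1 hU).2

lemma two_le_cast {W z p : ℕ} (hp : p ∈ QQ W z) : (2 : ℝ) ≤ p := by
  exact_mod_cast (QQ_prop p hp).1.two_le

lemma sum_inv_factored {U : Finset ℕ} (hU : ∀ p ∈ U, p.Prime) (A : Finset ℕ)
    (hA : ∀ n ∈ A, n ∈ Nat.factoredNumbers U) :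
    ∑ n ∈ A, (n : ℝ)⁻¹ ≤ ∏ p ∈ U, (1 - (p : ℝ)⁻¹)⁻¹ := by
  let f : ℕ →* ℝ := ⟨⟨fun n => (n : ℝ)⁻¹, by simp⟩, fun a b => by push_cast; rw [mul_inv]⟩
  have hf : ∀ {p : ℕ}, p.Prime → ‖f p‖ < 1 := by
    intro p hp
    have : (1 : ℝ) < p := by exact_mod_cast hp.one_lt
    change ‖(p : ℝ)⁻¹‖ < 1
    rw [Real.norm_eq_abs, abs_of_nonneg (by positivity)]
    exact inv_lt_one_of_one_lt₀ this
  have h := (EulerProduct.summable_and_hasSum_factoredNumbers_prod_filter_prime_geometric hf U).2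
  rw [Finset.filter_true_of_mem hU] at h
  have h2 := sum_le_hasSum (A.subtype (· ∈ Nat.factoredNumbers U))
    (fun i _ => (by change (0 : ℝ) ≤ ((i : ℕ) : ℝ)⁻¹; positivity)) h
  refine le_trans (le_of_eq ?_) h2
  exact (Finset.sum_subtype_of_mem (fun n : ℕ => (n : ℝ)⁻¹) hA).symm

lemma sum_inv_fiber {U : Finset ℕ} (hU : ∀ p ∈ U, p.Prime) (A : Finset ℕ)
    (hA : ∀ n ∈ A, n ≠ 0 ∧ n.primeFactors = U) :
    ∑ n ∈ A, (n : ℝ)⁻¹ ≤ ∏ p ∈ U, ((p : ℝ) - 1)⁻¹ := by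
  set d := ∏ p ∈ U, p with hd
  have hd0 : 0 < d := Finset.prod_pos fun p hp => (hU p hp).pos
  have hdvd : ∀ n ∈ A, d ∣ n := by
    intro n hn
    rw [hd, ← (hA n hn).2]
    exact Nat.prod_primeFactors_dvd n
  have hinj : Set.InjOn (fun n => n / d) (A : Set ℕ) := by
    intro a ha b hb h
    rw [← Nat.div_mul_cancel (hdvd a ha), ← Nat.div_mul_cancel (hdvd b hb)]
    exact congrArg (· * d) h
  have h1 := sum_inv_factored hU (A.image fun n => n / d) (by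
    intro m hm
    obtain ⟨n, hn, rfl⟩ := Finset.mem_image.1 hm
    refine Nat.mem_factoredNumbers_of_dvd (m := n) ?_ (Nat.div_dvd_of_dvd (hdvd n hn))
    exact Nat.mem_factoredNumbers_of_primeFactors_subset (hA n hn).1 (hA n hn).2.subset)
  rw [Finset.sum_image hinj] at h1
  have hd' : (0 : ℝ) < d := by exact_mod_cast hd0
  have h2 : ∑ n ∈ A, (n : ℝ)⁻¹ = (d : ℝ)⁻¹ * ∑ n ∈ A, ((n / d : ℕ) : ℝ)⁻¹ := by
    rw [Finset.mul_sum]
    refine Finset.sum_congr rfl fun n hn => ?_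
    rw [← mul_inv, ← Nat.cast_mul, Nat.mul_div_cancel' (hdvd n hn)]
  rw [h2]
  refine (mul_le_mul_of_nonneg_left h1 (by positivity)).trans (le_of_eq ?_)
  rw [hd, Nat.cast_prod, ← Finset.prod_inv_distrib, ← Finset.prod_mul_distrib]
  refine Finset.prod_congr rfl fun p hp => ?_
  have : (1 : ℝ) < p := by exact_mod_cast (hU p hp).one_lt
  have h3 : (p : ℝ) - 1 ≠ 0 := by linarith
  field_simp

lemma primeFactors_mem_LL {W z n : ℕ} (hn : n ∈ (Finset.Ioc 0 z).filter fun n => Nat.Coprime n W) :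
    n.primeFactors ∈ LL W z := by
  obtain ⟨h1, h2⟩ := Finset.mem_filter.1 hn
  obtain ⟨h3, h4⟩ := Finset.mem_Ioc.1 h1
  refine Finset.mem_filter.2 ⟨Finset.mem_powerset.2 fun p hp => ?_,
    (Nat.le_of_dvd h3 (Nat.prod_primeFactors_dvd n)).trans h4⟩
  have hp1 := Nat.prime_of_mem_primeFactors hp
  have hp2 := Nat.dvd_of_mem_primeFactors hp
  exact Finset.mem_filter.2 ⟨Finset.mem_Ioc.2 ⟨hp1.pos, (Nat.le_of_dvd h3 hp2).trans h4⟩,
    hp1, Nat.Coprime.coprime_dvd_left hp2 h2⟩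

/-- The harmonic sum over integers coprime to `W`. -/
noncomputable def HH (W z : ℕ) : ℝ :=
  ∑ n ∈ (Finset.Ioc 0 z).filter fun n => Nat.Coprime n W, (n : ℝ)⁻¹

lemma HH_le (W z : ℕ) : HH W z ≤ ∑ U ∈ LL W z, ∏ p ∈ U, ((p : ℝ) - 1)⁻¹ := by
  unfold HH
  rw [← Finset.sum_fiberwise_of_maps_to (g := Nat.primeFactors) (t := LL W z)
    fun n hn => primeFactors_mem_LL hn]
  refine Finset.sum_le_sum fun U hU => sum_inv_fiber (fun p hp => (QQ_prop p (LL_sub U hU hp)).1) _ ?_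
  intro n hn
  obtain ⟨h1, h2⟩ := Finset.mem_filter.1 hn
  exact ⟨(Finset.mem_Ioc.1 (Finset.mem_filter.1 h1).1).1.ne', h2⟩

lemma prod_injOn (W z : ℕ) : Set.InjOn (fun U : Finset ℕ => ∏ p ∈ U, p) (LL W z : Set (Finset ℕ)) := by
  intro U hU V hV h
  rw [← Nat.primeFactors_prod fun p hp => (QQ_prop p (LL_sub U hU hp)).1,
    ← Nat.primeFactors_prod fun p hp => (QQ_prop p (LL_sub V hV hp)).1]
  exact congrArg Nat.primeFactors h

lemma prod_mem {W z : ℕ} {U : Finset ℕ} (hU : U ∈ LL W z) :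
    ∏ p ∈ U, p ∈ (Finset.Ioc 0 z).filter fun n => Nat.Coprime n W :=
  Finset.mem_filter.2 ⟨Finset.mem_Ioc.2
    ⟨Finset.prod_pos fun p hp => (QQ_prop p (LL_sub U hU hp)).1.pos, LL_le U hU⟩,
    Nat.Coprime.prod_left fun p hp => (QQ_prop p (LL_sub U hU hp)).2⟩

lemma card_LL (W z : ℕ) : (LL W z).card ≤ cop W 0 z :=
  Finset.card_le_card_of_injOn _ (fun _ hU => prod_mem hU) (prod_injOn W z)

lemma card_LL_sup (W z : ℕ) (S : Finset ℕ) :
    ((LL W z).filter fun U => S ⊆ U).card ≤ z / ∏ p ∈ S, p := by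
  rw [← Nat.Ioc_filter_dvd_card_eq_div]
  refine Finset.card_le_card_of_injOn (fun U => ∏ p ∈ U, p) (fun U hU => ?_)
    ((prod_injOn W z).mono fun U hU => (Finset.mem_filter.1 hU).1)
  obtain ⟨h1, h2⟩ := Finset.mem_filter.1 hU
  exact Finset.mem_filter.2 ⟨(Finset.mem_filter.1 (prod_mem h1)).1,
    Finset.prod_dvd_prod_of_subset _ _ _ h2⟩

lemma sig_le (W z : ℕ) :
    ∑ U ∈ LL W z, ∏ p ∈ U, (((p : ℝ) + 1) * ((p : ℝ) - 1)⁻¹) ≤
      cop W 0 z + z * (∏ p ∈ QQ W z, (1 + 2 / ((p : ℝ) * (p - 1))) - 1) := by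
  have h1 : ∀ U ∈ LL W z, ∏ p ∈ U, (((p : ℝ) + 1) * ((p : ℝ) - 1)⁻¹) =
      ∑ S ∈ (QQ W z).powerset, if S ⊆ U then ∏ p ∈ S, 2 / ((p : ℝ) - 1) else 0 := by
    intro U hU
    rw [← Finset.sum_filter]
    have : (QQ W z).powerset.filter (fun S => S ⊆ U) = U.powerset := by
      ext S
      simp only [Finset.mem_filter, Finset.mem_powerset]
      exact ⟨fun h => h.2, fun h => ⟨h.trans (LL_sub U hU), h⟩⟩
    rw [this, ← Finset.prod_one_add]
    refine Finset.prod_congr rfl fun p hp => ?_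
    have := two_le_cast (LL_sub U hU hp)
    have h3 : (p : ℝ) - 1 ≠ 0 := by linarith
    field_simp
    ring
  rw [Finset.sum_congr rfl h1, Finset.sum_comm, Finset.prod_one_add]
  have he : ∅ ∈ (QQ W z).powerset := Finset.empty_mem_powerset _
  rw [← Finset.add_sum_erase _ _ he, ← Finset.add_sum_erase _ _ he]
  simp only [Finset.empty_subset, if_true, Finset.prod_empty, Finset.sum_const, nsmul_eq_mul,
    mul_one, add_sub_cancel_left]
  rw [Finset.mul_sum]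
  refine add_le_add (by exact_mod_cast card_LL W z) (Finset.sum_le_sum fun S hS => ?_)
  have hS' : S ⊆ QQ W z := Finset.mem_powerset.1 (Finset.mem_of_mem_erase hS)
  rw [← Finset.sum_filter, Finset.sum_const, nsmul_eq_mul]
  have h2 : (((LL W z).filter fun U => S ⊆ U).card : ℝ) ≤ z / ∏ p ∈ S, (p : ℝ) := by
    rw [← Nat.cast_prod]
    exact le_trans (by exact_mod_cast card_LL_sup W z S) Nat.cast_div_le
  have h3 : 0 ≤ ∏ p ∈ S, 2 / ((p : ℝ) - 1) := Finset.prod_nonneg fun p hp => by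
    have := two_le_cast (hS' hp)
    apply div_nonneg <;> linarith
  refine (mul_le_mul_of_nonneg_right h2 h3).trans (le_of_eq ?_)
  rw [div_eq_mul_inv, mul_assoc, ← Finset.prod_inv_distrib, ← Finset.prod_mul_distrib]
  congr 1
  refine Finset.prod_congr rfl fun p hp => ?_
  have := two_le_cast (hS' hp)
  have h3 : (p : ℝ) - 1 ≠ 0 := by linarith
  field_simp

theorem selB {W : ℕ} {ρ h : ℝ} (hT : Tab W ρ h) (hρ : 0 ≤ ρ) {z : ℕ} {H Sg : ℝ} (hH0 : 0 < H)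
    (hH : H ≤ HH W z)
    (hSg : cop W 0 z + z * (∏ p ∈ QQ W z, (1 + 2 / ((p : ℝ) * (p - 1))) - 1) ≤ Sg)
    {A B : ℕ} (hAB : A ≤ B) :
    (cop (W * ∏ p ∈ QQ W z, p) A B : ℝ) ≤ ρ * ((B : ℝ) - A) / H + 2 * h * Sg ^ 2 / H ^ 2 := by
  set G := ∑ U ∈ LL W z, ∏ p ∈ U, ((p : ℝ) - 1)⁻¹ with hG
  have hHG : H ≤ G := hH.trans (HH_le W z)
  have hG0 : 0 < G := hH0.trans_le hHG
  have hh : 0 ≤ h := by simpa [cop_zero] using (hT 0).1
  have hpos : ∀ U ∈ LL W z, 0 < ∏ p ∈ U, ((p : ℝ) - 1) := fun U hU =>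
    Finset.prod_pos fun p hp => by have := two_le_cast (LL_sub U hU hp); linarith
  set y : Finset ℕ → ℝ := fun U => (∏ p ∈ U, ((p : ℝ) - 1)⁻¹) / G with hy
  have hy0 : ∀ U ∈ LL W z, 0 ≤ y U := fun U hU => by
    simp only [hy, Finset.prod_inv_distrib]
    have := hpos U hU
    positivity
  have hy1 : ∑ U ∈ LL W z, y U = 1 := by
    simp only [hy]
    rw [← Finset.sum_div, div_self hG0.ne']
  refine (selberg QQ_prop (LL W z) LL_sub y hy1 ρ A B).trans (add_le_add ?_ ?_)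
  · have : ∑ U ∈ LL W z, (∏ p ∈ U, ((p : ℝ) - 1)) * y U ^ 2 = G⁻¹ := by
      have : ∀ U ∈ LL W z, (∏ p ∈ U, ((p : ℝ) - 1)) * y U ^ 2 = y U / G := by
        intro U hU
        simp only [hy, Finset.prod_inv_distrib]
        have := (hpos U hU).ne'
        field_simp
      rw [Finset.sum_congr rfl this, ← Finset.sum_div, hy1, one_div]
    rw [this, ← div_eq_mul_inv]
    have hBA : (0 : ℝ) ≤ (B : ℝ) - A := sub_nonneg.2 (by exact_mod_cast hAB)
    exact div_le_div_of_nonneg_left (mul_nonneg hρ hBA) hH0 hHG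
  · set s : Finset ℕ → ℝ := fun U => ∑ S ∈ U.powerset, ∏ p ∈ S, (p : ℝ) with hs
    have h1 : ∀ U ∈ LL W z, ∀ V ∈ LL W z, y U * y V * ∑ S ∈ U.powerset, ∑ T ∈ V.powerset,
        (-1 : ℝ) ^ S.card * (-1) ^ T.card * ((∏ p ∈ S, (p : ℝ)) * ∏ p ∈ T, (p : ℝ)) *
          rem W ρ A B (∏ p ∈ S ∪ T, p) ≤ 2 * h * ((y U * s U) * (y V * s V)) := by
      intro U hU V hV
      have : 2 * h * ((y U * s U) * (y V * s V)) = y U * y V * ∑ S ∈ U.powerset, ∑ T ∈ V.powerset,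
          ((∏ p ∈ S, (p : ℝ)) * ∏ p ∈ T, (p : ℝ)) * (2 * h) := by
        simp only [hs, ← Finset.sum_mul, ← Finset.sum_mul_sum]
        ring
      rw [this]
      refine mul_le_mul_of_nonneg_left (Finset.sum_le_sum fun S hS => Finset.sum_le_sum fun T hT => ?_)
        (mul_nonneg (hy0 U hU) (hy0 V hV))
      have hq0 : 0 < ∏ p ∈ S ∪ T, p := Finset.prod_pos fun p hp => by
        rcases Finset.mem_union.1 hp with hp | hp
        · exact (QQ_prop p (LL_sub U hU (Finset.mem_powerset.1 hS hp))).1.pos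
        · exact (QQ_prop p (LL_sub V hV (Finset.mem_powerset.1 hT hp))).1.pos
      have h2 : |rem W ρ A B (∏ p ∈ S ∪ T, p)| ≤ 2 * h := Tab.abs_le ‹Tab W ρ h› hρ hAB hq0
      have h3 : (0 : ℝ) ≤ (∏ p ∈ S, (p : ℝ)) * ∏ p ∈ T, (p : ℝ) := by positivity
      refine (le_abs_self _).trans ?_
      rw [abs_mul, abs_mul, abs_mul, abs_neg_one_pow, abs_neg_one_pow, one_mul, one_mul,
        abs_of_nonneg h3]
      exact mul_le_mul_of_nonneg_left h2 h3
    refine (Finset.sum_le_sum fun U hU => Finset.sum_le_sum fun V hV => h1 U hU V hV).trans ?_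
    simp only [← Finset.mul_sum]
    rw [← Finset.sum_mul, ← sq]
    have h4 : ∑ U ∈ LL W z, y U * s U =
        (∑ U ∈ LL W z, ∏ p ∈ U, (((p : ℝ) + 1) * ((p : ℝ) - 1)⁻¹)) / G := by
      rw [Finset.sum_div]
      refine Finset.sum_congr rfl fun U _ => ?_
      simp only [hy, hs]
      rw [← Finset.prod_one_add, Finset.prod_mul_distrib]
      simp only [add_comm (1 : ℝ)]
      ring
    have h5 : 0 ≤ ∑ U ∈ LL W z, y U * s U := Finset.sum_nonneg fun U hU =>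
      mul_nonneg (hy0 U hU) (Finset.sum_nonneg fun S _ => by positivity)
    have h6 : ∑ U ∈ LL W z, y U * s U ≤ Sg / H := by
      have h7 := (sig_le W z).trans hSg
      have h8 : 0 ≤ Sg := by
        rw [h4] at h5
        exact ((div_nonneg_iff.1 h5).elim (·.1) fun h => absurd h.2 (not_le.2 hG0)).trans h7
      rw [h4]
      exact (div_le_div_of_nonneg_right h7 hG0.le).trans (div_le_div_of_nonneg_left h8 hH0 hHG)
    rw [mul_div_assoc, ← div_pow]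
    exact mul_le_mul_of_nonneg_left (pow_le_pow_left₀ h5 h6 2) (by positivity)

end Pool.Agent.P.MP_26a8c3_nt.HybS
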