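import Pool.Agent.P.MP_26a8c3_nt.HybS.Count

/-! Selberg's sieve on the integers coprime to a fixed modulus, indexed by sets of primes. -/

namespace Pool.Agent.P.MP_26a8c3_nt.HybS

open Finset

lemma card_dvd_cop {W q : ℕ} (hq : 0 < q) (hqW : Nat.Coprime q W) (A B : ℕ) :
    (((Finset.Ioc A B).filter fun m => Nat.Coprime m W).filter fun m => q ∣ m).card
      = cop W (A / q) (B / q) := by
  unfold cop
  symm
  refine Finset.card_bij (fun m _ => q * m) ?_ ?_ ?_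
  · intro m hm
    obtain ⟨h1, h2⟩ := Finset.mem_filter.1 hm
    obtain ⟨h3, h4⟩ := Finset.mem_Ioc.1 h1
    refine Finset.mem_filter.2 ⟨Finset.mem_filter.2 ⟨Finset.mem_Ioc.2 ⟨?_, ?_⟩, ?_⟩, Dvd.intro _ rfl⟩
    · rw [mul_comm]; exact (Nat.div_lt_iff_lt_mul hq).1 h3
    · rw [mul_comm]; exact (Nat.le_div_iff_mul_le hq).1 h4
    · exact Nat.Coprime.mul_left hqW h2
  · intro a _ b _ h
    exact Nat.eq_of_mul_eq_mul_left hq h
  · intro m hm
    obtain ⟨h1, c, rfl⟩ := Finset.mem_filter.1 hm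
    obtain ⟨h2, h3⟩ := Finset.mem_filter.1 h1
    obtain ⟨h4, h5⟩ := Finset.mem_Ioc.1 h2
    refine ⟨c, Finset.mem_filter.2 ⟨Finset.mem_Ioc.2 ⟨?_, ?_⟩, h3.coprime_mul_left⟩, rfl⟩
    · exact (Nat.div_lt_iff_lt_mul hq).2 (by rwa [mul_comm])
    · exact (Nat.le_div_iff_mul_le hq).2 (by rwa [mul_comm])

lemma prod_dvd_iff {S : Finset ℕ} (hS : ∀ p ∈ S, p.Prime) (m : ℕ) :
    (∏ p ∈ S, p) ∣ m ↔ ∀ p ∈ S, p ∣ m :=
  ⟨fun h _ hp => (Finset.dvd_prod_of_mem _ hp).trans h,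
    fun h => Finset.prod_primes_dvd m (fun p hp => (hS p hp).prime) h⟩

lemma orth_aux (U V : Finset ℕ) :
    ∑ S ∈ U.powerset, ∑ T ∈ V.powerset, (-1 : ℝ) ^ S.card * (-1) ^ T.card * ∏ p ∈ S ∩ T, (p : ℝ)
      = ∑ S ∈ U.powerset, (-1 : ℝ) ^ S.card * ∏ p ∈ V, (1 - if p ∈ S then (p : ℝ) else 1) := by
  refine Finset.sum_congr rfl fun S _ => ?_
  simp only [sub_eq_add_neg]
  rw [Finset.prod_one_add, Finset.mul_sum]
  refine Finset.sum_congr rfl fun T _ => ?_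
  rw [Finset.prod_neg, mul_assoc, Finset.prod_ite_mem, Finset.inter_comm]

lemma orth (U V : Finset ℕ) :
    ∑ S ∈ U.powerset, ∑ T ∈ V.powerset, (-1 : ℝ) ^ S.card * (-1) ^ T.card * ∏ p ∈ S ∩ T, (p : ℝ)
      = if U = V then ∏ p ∈ U, ((p : ℝ) - 1) else 0 := by
  have hz : ∀ U V : Finset ℕ, ¬ V ⊆ U →
      ∑ S ∈ U.powerset, ∑ T ∈ V.powerset,
        (-1 : ℝ) ^ S.card * (-1) ^ T.card * ∏ p ∈ S ∩ T, (p : ℝ) = 0 := by
    intro U V h
    rw [orth_aux]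
    obtain ⟨p, hpV, hpU⟩ := Finset.not_subset.1 h
    refine Finset.sum_eq_zero fun S hS => ?_
    rw [Finset.prod_eq_zero hpV, mul_zero]
    rw [if_neg fun h => hpU (Finset.mem_powerset.1 hS h), sub_self]
  split_ifs with h
  · subst h
    rw [orth_aux, Finset.sum_eq_single U]
    · rw [← Finset.prod_neg]
      refine Finset.prod_congr rfl fun p hp => ?_
      rw [if_pos hp]; ring
    · intro S hS hne
      obtain ⟨p, hpU, hpS⟩ := Finset.not_subset.1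
        fun h => hne (Finset.Subset.antisymm (Finset.mem_powerset.1 hS) h)
      rw [Finset.prod_eq_zero hpU, mul_zero]
      rw [if_neg hpS, sub_self]
    · intro h; exact absurd (Finset.mem_powerset_self U) h
  · by_cases h1 : V ⊆ U
    · have h2 : ¬ U ⊆ V := fun h2 => h (Finset.Subset.antisymm h2 h1)
      rw [Finset.sum_comm, ← hz V U h2]
      refine Finset.sum_congr rfl fun S _ => Finset.sum_congr rfl fun T _ => ?_
      rw [Finset.inter_comm]; ring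
    · exact hz U V h1

/-- The remainder for the multiples of `q`. -/
noncomputable def rem (W : ℕ) (ρ : ℝ) (A B q : ℕ) : ℝ :=
  (cop W (A / q) (B / q) : ℝ) - ρ * ((B : ℝ) - A) / q

theorem selberg {W : ℕ} {Q : Finset ℕ} (hQ : ∀ p ∈ Q, p.Prime ∧ Nat.Coprime p W)
    (L : Finset (Finset ℕ)) (hL : ∀ U ∈ L, U ⊆ Q) (y : Finset ℕ → ℝ) (hy : ∑ U ∈ L, y U = 1)
    (ρ : ℝ) (A B : ℕ) :
    (cop (W * ∏ p ∈ Q, p) A B : ℝ) ≤
      ρ * ((B : ℝ) - A) * ∑ U ∈ L, (∏ p ∈ U, ((p : ℝ) - 1)) * y U ^ 2 +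
      ∑ U ∈ L, ∑ V ∈ L, y U * y V * ∑ S ∈ U.powerset, ∑ T ∈ V.powerset,
        (-1 : ℝ) ^ S.card * (-1) ^ T.card * ((∏ p ∈ S, (p : ℝ)) * ∏ p ∈ T, (p : ℝ)) *
          rem W ρ A B (∏ p ∈ S ∪ T, p) := by
  set I := (Finset.Ioc A B).filter fun m => Nat.Coprime m W with hI
  set ψ : Finset ℕ → ℕ → ℝ := fun U m => ∑ S ∈ U.powerset,
    (-1 : ℝ) ^ S.card * (∏ p ∈ S, (p : ℝ)) * if (∏ p ∈ S, p) ∣ m then 1 else 0 with hψ
  have h1 : (cop (W * ∏ p ∈ Q, p) A B : ℝ) ≤ ∑ m ∈ I, (∑ U ∈ L, y U * ψ U m) ^ 2 := by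
    have hsub : ((Finset.Ioc A B).filter fun m => Nat.Coprime m (W * ∏ p ∈ Q, p)) ⊆ I := by
      intro m hm
      obtain ⟨a, b⟩ := Finset.mem_filter.1 hm
      exact Finset.mem_filter.2 ⟨a, b.coprime_mul_right_right⟩
    refine le_trans ?_ (Finset.sum_le_sum_of_subset_of_nonneg hsub fun _ _ _ => sq_nonneg _)
    unfold cop
    rw [Finset.card_eq_sum_ones, Nat.cast_sum]
    refine Finset.sum_le_sum fun m hm => ?_
    have hm2 : Nat.Coprime m (∏ p ∈ Q, p) := (Finset.mem_filter.1 hm).2.coprime_mul_left_right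
    have : ∀ U ∈ L, ψ U m = 1 := by
      intro U hU
      simp only [hψ]
      rw [Finset.sum_eq_single ∅]
      · simp
      · intro S hS hne
        obtain ⟨p, hp⟩ := Finset.nonempty_iff_ne_empty.2 hne
        have hpQ := hL U hU (Finset.mem_powerset.1 hS hp)
        rw [if_neg, mul_zero]
        intro hd
        have h1 : p ∣ m := (Finset.dvd_prod_of_mem _ hp).trans hd
        have h2 : p ∣ ∏ p ∈ Q, p := Finset.dvd_prod_of_mem _ hpQ
        exact (hQ p hpQ).1.one_lt.ne' (Nat.eq_one_of_dvd_coprimes hm2 h1 h2)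
      · intro h; exact absurd (Finset.empty_mem_powerset U) h
    rw [Finset.sum_congr rfl fun U hU => by rw [this U hU, mul_one], hy]
    simp
  refine h1.trans (le_of_eq ?_)
  have h2 : ∀ U ∈ L, ∀ V ∈ L, ∑ m ∈ I, ψ U m * ψ V m =
      ρ * ((B : ℝ) - A) * (if U = V then ∏ p ∈ U, ((p : ℝ) - 1) else 0) +
      ∑ S ∈ U.powerset, ∑ T ∈ V.powerset,
        (-1 : ℝ) ^ S.card * (-1) ^ T.card * ((∏ p ∈ S, (p : ℝ)) * ∏ p ∈ T, (p : ℝ)) *
          rem W ρ A B (∏ p ∈ S ∪ T, p) := by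
    intro U hU V hV
    rw [← orth, Finset.mul_sum, ← Finset.sum_add_distrib]
    simp only [hψ, Finset.sum_mul_sum]
    rw [Finset.sum_comm]
    refine Finset.sum_congr rfl fun S hS => ?_
    rw [Finset.sum_comm, Finset.mul_sum, ← Finset.sum_add_distrib]
    refine Finset.sum_congr rfl fun T hT => ?_
    have hSQ : S ⊆ Q := (Finset.mem_powerset.1 hS).trans (hL U hU)
    have hTQ : T ⊆ Q := (Finset.mem_powerset.1 hT).trans (hL V hV)
    have hSTQ : S ∪ T ⊆ Q := Finset.union_subset hSQ hTQ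
    have hq0 : 0 < ∏ p ∈ S ∪ T, p := Finset.prod_pos fun p hp => (hQ p (hSTQ hp)).1.pos
    have hqW : Nat.Coprime (∏ p ∈ S ∪ T, p) W :=
      Nat.Coprime.prod_left fun p hp => (hQ p (hSTQ hp)).2
    have hcount := card_dvd_cop hq0 hqW A B
    have hterm : ∀ m ∈ I,
        ((-1 : ℝ) ^ S.card * (∏ p ∈ S, (p : ℝ)) * if (∏ p ∈ S, p) ∣ m then 1 else 0) *
        ((-1 : ℝ) ^ T.card * (∏ p ∈ T, (p : ℝ)) * if (∏ p ∈ T, p) ∣ m then 1 else 0) =
        (-1 : ℝ) ^ S.card * (-1) ^ T.card * ((∏ p ∈ S, (p : ℝ)) * ∏ p ∈ T, (p : ℝ)) *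
          if (∏ p ∈ S ∪ T, p) ∣ m then 1 else 0 := by
      intro m _
      have e : (∏ p ∈ S ∪ T, p) ∣ m ↔ (∏ p ∈ S, p) ∣ m ∧ (∏ p ∈ T, p) ∣ m := by
        rw [prod_dvd_iff fun p hp => (hQ p (hSTQ hp)).1, prod_dvd_iff fun p hp => (hQ p (hSQ hp)).1,
          prod_dvd_iff fun p hp => (hQ p (hTQ hp)).1, Finset.forall_mem_union]
      by_cases a : (∏ p ∈ S, p) ∣ m <;> by_cases b : (∏ p ∈ T, p) ∣ m <;> simp [e, a, b]
      ring
    rw [Finset.sum_congr rfl hterm, ← Finset.mul_sum, Finset.sum_boole, hcount]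
    have hu : (∏ p ∈ S ∪ T, (p : ℝ)) * ∏ p ∈ S ∩ T, (p : ℝ)
        = (∏ p ∈ S, (p : ℝ)) * ∏ p ∈ T, (p : ℝ) := Finset.prod_union_inter
    have hq0' : (∏ p ∈ S ∪ T, (p : ℝ)) ≠ 0 := by
      have : (0 : ℝ) < ((∏ p ∈ S ∪ T, p : ℕ) : ℝ) := by exact_mod_cast hq0
      rw [Nat.cast_prod] at this
      exact this.ne'
    unfold rem
    rw [← hu, Nat.cast_prod]
    field_simp
    ring
  calc ∑ m ∈ I, (∑ U ∈ L, y U * ψ U m) ^ 2
      = ∑ U ∈ L, ∑ V ∈ L, y U * y V * ∑ m ∈ I, ψ U m * ψ V m := by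
        simp only [sq, Finset.sum_mul_sum]
        simp only [Finset.mul_sum]
        rw [Finset.sum_comm]
        refine Finset.sum_congr rfl fun U _ => ?_
        rw [Finset.sum_comm]
        refine Finset.sum_congr rfl fun V _ => Finset.sum_congr rfl fun m _ => by ring
    _ = _ := by
        rw [Finset.mul_sum, ← Finset.sum_add_distrib]
        refine Finset.sum_congr rfl fun U hU => ?_
        rw [Finset.sum_congr rfl fun V hV => by rw [h2 U hU V hV, mul_add], Finset.sum_add_distrib]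
        congr 1
        rw [Finset.sum_eq_single U]
        · rw [if_pos rfl]; ring
        · intro V _ hne; rw [if_neg (Ne.symm hne)]; ring
        · intro h; exact absurd hU h

end Pool.Agent.P.MP_26a8c3_nt.HybS
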