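import Pool.Agent.P.MP_26a8c3_nt.HybS.Num

/-! The inequality with the sharp additive constant, range by range. -/

namespace Pool.Agent.P.MP_26a8c3_nt.HybS

open Finset

lemma mono_step {c s t L v : ℝ} (hs : 0 < s) (hst : s < t) (hL : Real.log s + c ≤ L) (hv0 : 0 ≤ v)
    (h1 : v * L ≤ 2 * s) (h2 : v < 2 * s) : v * (Real.log t + c) < 2 * t := by
  have ht : 0 < t := hs.trans hst
  have h3 : Real.log t - Real.log s ≤ (t - s) / s := by
    rw [← Real.log_div ht.ne' hs.ne']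
    refine (Real.log_le_sub_one_of_pos (by positivity)).trans (le_of_eq ?_)
    field_simp
  have h4 : v * ((t - s) / s) < 2 * (t - s) := by
    rw [← mul_div_assoc, div_lt_iff₀ hs]
    nlinarith
  nlinarith [mul_le_mul_of_nonneg_left h3 hv0, mul_le_mul_of_nonneg_left hL hv0]

lemma lin_step {c α β t₁ t₂ t L₁ L₂ : ℝ} (h0 : 0 < t₁) (h1 : t₁ ≤ t) (h2 : t ≤ t₂) (hα : 0 ≤ α)
    (hβ : 0 ≤ β) (hL1 : Real.log t₁ + c ≤ L₁) (hL2 : Real.log t₂ + c ≤ L₂)
    (e1 : α * t₁ * L₁ + β * L₂ < 2 * t₁) (e2 : (α * t₂ + β) * L₂ < 2 * t₂) :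
    (α * t + β) * (Real.log t + c) < 2 * t := by
  obtain ⟨a, b, ha, hb, hab, rfl⟩ := (Convex.mem_Icc (h1.trans h2)).1 ⟨h1, h2⟩
  have ht2 : 0 < t₂ := h0.trans_le (h1.trans h2)
  have hc := Real.convexOn_mul_log.2 (Set.mem_Ici.2 h0.le) (Set.mem_Ici.2 ht2.le) ha hb hab
  simp only [smul_eq_mul] at hc
  set t := a * t₁ + b * t₂ with ht
  have h3 : Real.log t ≤ Real.log t₂ := Real.log_le_log (h0.trans_le h1) h2
  have h4 : β * (Real.log t + c) ≤ β * L₂ := mul_le_mul_of_nonneg_left (by linarith) hβ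
  have h5 : t₁ * (Real.log t₁ + c) ≤ t₁ * L₁ := mul_le_mul_of_nonneg_left hL1 h0.le
  have h6 : t₂ * (Real.log t₂ + c) ≤ t₂ * L₂ := mul_le_mul_of_nonneg_left hL2 ht2.le
  have h7 : t * (Real.log t + c) ≤ a * (t₁ * L₁) + b * (t₂ * L₂) := by
    have := mul_le_mul_of_nonneg_left h5 ha
    have := mul_le_mul_of_nonneg_left h6 hb
    have : t * c = a * (t₁ * c) + b * (t₂ * c) := by rw [ht]; ring
    nlinarith
  have h8 := mul_le_mul_of_nonneg_left h7 hα
  have h9 : a * (α * t₁ * L₁ + β * L₂ - 2 * t₁) + b * ((α * t₂ + β) * L₂ - 2 * t₂) < 0 := by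
    rcases ha.eq_or_lt with rfl | ha'
    · have : b = 1 := by linarith
      subst this; linarith
    · have := mul_neg_of_pos_of_neg ha' (sub_neg.2 e1)
      have := mul_nonpos_of_nonneg_of_nonpos hb (sub_neg.2 e2).le
      linarith
  have h10 : β * L₂ = a * (β * L₂) + b * (β * L₂) := by rw [← add_mul, hab, one_mul]
  nlinarith

lemma log_dyadic (j : ℕ) :
    Real.log (5 * 2 ^ j) + (5 / 2 - Real.log 5) ≤ 5 / 2 + j * 0.6931471808 := by
  rw [Real.log_mul (by norm_num) (by positivity), Real.log_pow]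
  have := mul_le_mul_of_nonneg_left Real.log_two_lt_d9.le (Nat.cast_nonneg (α := ℝ) j)
  linarith

lemma dyadic_step {α β t : ℝ} (i j : ℕ) (h1 : 5 * 2 ^ i ≤ t) (h2 : t ≤ 5 * 2 ^ j) (hα : 0 ≤ α)
    (hβ : 0 ≤ β)
    (e1 : α * (5 * 2 ^ i) * (5 / 2 + i * 0.6931471808) + β * (5 / 2 + j * 0.6931471808)
      < 2 * (5 * 2 ^ i))
    (e2 : (α * (5 * 2 ^ j) + β) * (5 / 2 + j * 0.6931471808) < 2 * (5 * 2 ^ j)) :
    (α * t + β) * (Real.log t + (5 / 2 - Real.log 5)) < 2 * t :=
  lin_step (by positivity) h1 h2 hα hβ (log_dyadic i) (log_dyadic j) e1 e2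

lemma large_step {t : ℝ} (ht : 5 * 2 ^ 18 ≤ t) : ∃ (z : ℕ) (H Sg : ℝ), 7 ≤ z ∧ 0 < H ∧
    H ≤ HH 210 z ∧ 306 / 1000 * z + 53 / 35 ≤ Sg ∧
    (8 / 35 / H * t + (z + 8 / 35 / H + 106 / 35 * Sg ^ 2 / H ^ 2)) *
      (Real.log t + (5 / 2 - Real.log 5)) < 2 * t := by
  have ht0 : 0 < t := lt_of_lt_of_le (by norm_num) ht
  set z := ⌊√(t / 10)⌋₊ with hz
  have h1 : (z : ℝ) ≤ √(t / 10) := Nat.floor_le (Real.sqrt_nonneg _)
  have h2 : √(t / 10) < z + 1 := Nat.lt_floor_add_one _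
  have hz0 : (0 : ℝ) ≤ z := Nat.cast_nonneg _
  have h3 : 10 * (z : ℝ) ^ 2 ≤ t := by
    have := pow_le_pow_left₀ hz0 h1 2
    rw [Real.sq_sqrt (by positivity)] at this
    linarith
  have h4 : t < 10 * ((z : ℝ) + 1) ^ 2 := by
    have := (Real.sqrt_lt' (by positivity)).1 h2
    linarith
  have hz1 : (360 : ℝ) ≤ z := by
    by_contra h
    push Not at h
    nlinarith
  have hz2 : 360 ≤ z := by exact_mod_cast hz1
  have l2 := Real.log_two_lt_d9
  have l5 := Real.log_five_gt_d9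
  have l5' := Real.log_five_lt_d9
  set X := Real.log t + (5 / 2 - Real.log 5) with hX
  have hlog : X ≤ 2 * Real.log (z + 1) + 32 / 10 := by
    have : Real.log t ≤ Real.log (10 * ((z : ℝ) + 1) ^ 2) := Real.log_le_log ht0 h4.le
    rw [show (10 : ℝ) = 2 * 5 by norm_num, Real.log_mul (by norm_num) (by positivity),
      Real.log_mul (by norm_num) (by norm_num), Real.log_pow] at this
    push_cast at this
    linarith
  have hX0 : 0 < X := by
    have : 0 ≤ Real.log t := Real.log_nonneg (le_trans (by norm_num) ht)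
    linarith
  obtain ⟨Y, hY⟩ : ∃ Y, Y = X + 175 / 100 := ⟨_, rfl⟩
  have hY0 : 0 < Y := by linarith
  have hYz : Y ^ 2 ≤ 12 * z := by
    set u := √((z : ℝ) + 1) with hu
    have hu2 : u ^ 2 = z + 1 := Real.sq_sqrt (by positivity)
    have hu0 : 0 < u := Real.sqrt_pos.2 (by positivity)
    have hu19 : 19 ≤ u := by
      by_contra h
      push Not at h
      nlinarith
    have a1 : Real.log (z + 1) = 2 * (Real.log (u / 2) + Real.log 2) := by
      rw [← Real.log_mul (by positivity) (by norm_num), div_mul_cancel₀ _ (by norm_num), ← hu2,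
        Real.log_pow]
      norm_num
    have a2 : Real.log (u / 2) ≤ u / 2 - 1 := Real.log_le_sub_one_of_pos (by positivity)
    have a3 : Y ≤ 3 * u := by linarith
    nlinarith
  refine ⟨z, 8 / 35 * (Y / 2), 311 / 1000 * z, by omega, by positivity, ?_, by linarith, ?_⟩
  · refine le_trans ?_ (HH210_ge (n := z) (by omega))
    linarith
  · have e : (8 / 35 / (8 / 35 * (Y / 2)) * t + (z + 8 / 35 / (8 / 35 * (Y / 2)) +
        106 / 35 * (311 / 1000 * (z : ℝ)) ^ 2 / (8 / 35 * (Y / 2)) ^ 2))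
        = (2 * t * Y + z * Y ^ 2 + 2 * Y + 35883491 / 1600000 * (z : ℝ) ^ 2) / Y ^ 2 := by
      field_simp; ring
    have hXY : X = Y - 175 / 100 := by linarith
    rw [e, hXY, div_mul_eq_mul_div, div_lt_iff₀ (by positivity)]
    have b1 : z * Y ^ 2 ≤ 12 * (z : ℝ) ^ 2 := by nlinarith
    have b2 : Y ≤ z := by nlinarith
    have b3 : 2 * Y ≤ (z : ℝ) ^ 2 / 10 := by nlinarith
    have b4 : z * Y ^ 2 + 2 * Y + 35883491 / 1600000 * (z : ℝ) ^ 2 ≤ 346 / 100 * t := by linarith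
    have b5 : 0 ≤ z * Y ^ 2 + 2 * Y + 35883491 / 1600000 * (z : ℝ) ^ 2 := by positivity
    have b6 := mul_le_mul_of_nonneg_right b4 hY0.le
    have b7 := mul_pos ht0 hY0
    nlinarith

theorem sharp_fin {k l : ℕ} {x y : ℝ} {A : Finset ℕ} (hA : Good k l x y A) (hk : 0 < k)
    (hky : (k : ℝ) < y) :
    (A.card : ℝ) < 2 * y / (Nat.totient k * (Real.log (y / k) + (5 / 2 - Real.log 5))) := by
  have hk' : (0 : ℝ) < k := by exact_mod_cast hk
  have hy : 0 ≤ y := by linarith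
  have ht1 : 1 < y / k := (one_lt_div hk').2 hky
  have l2 := Real.log_two_lt_d9
  have l3 := Real.log_three_lt_d9
  have l5 := Real.log_five_gt_d9
  have l5' := Real.log_five_lt_d9
  have hφ : (0 : ℝ) < Nat.totient k := by exact_mod_cast Nat.totient_pos.2 hk
  have hX : 0 < Real.log (y / k) + (5 / 2 - Real.log 5) := by
    have := Real.log_pos ht1
    linarith
  suffices h : ∃ b : ℝ, (A.card : ℝ) * Nat.totient k ≤ k * b ∧
      b * (Real.log (y / k) + (5 / 2 - Real.log 5)) < 2 * (y / k) by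
    obtain ⟨b, h1, h2⟩ := h
    rw [lt_div_iff₀ (by positivity), ← mul_assoc]
    have h3 := mul_lt_mul_of_pos_left h2 hk'
    have h4 : (k : ℝ) * (2 * (y / k)) = 2 * y := by field_simp
    have h5 := mul_le_mul_of_nonneg_right h1 hX.le
    nlinarith
  by_cases c1 : y / k ≤ 3
  · refine ⟨2, (six hA hk).1 c1, ?_⟩
    have := Real.log_le_sub_one_of_pos (x := y / k) (by positivity)
    linarith
  by_cases c2 : y / k ≤ 5
  · refine ⟨3, by simpa [one_add_one_eq_two] using
      (by convert (six hA hk).2 1 (by norm_num; exact c2) using 2; norm_num), ?_⟩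
    exact mono_step (s := 3) (L := 2) (by norm_num) (not_le.1 c1) (by linarith) (by norm_num)
      (by norm_num) (by norm_num)
  by_cases c3 : y / k ≤ 8
  · refine ⟨4, by convert (six hA hk).2 2 (by norm_num; exact c3) using 2; norm_num, ?_⟩
    exact mono_step (s := 5) (L := 5 / 2) (by norm_num) (not_le.1 c2) (by linarith) (by norm_num)
      (by norm_num) (by norm_num)
  by_cases c4 : y / k ≤ 10
  · refine ⟨5, by convert (six hA hk).2 3 (by norm_num; linarith) using 2; norm_num, ?_⟩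
    refine mono_step (s := 8) (L := 3) (by norm_num) (not_le.1 c3) ?_ (by norm_num)
      (by norm_num) (by norm_num)
    rw [show (8 : ℝ) = 2 ^ 3 by norm_num, Real.log_pow]
    push_cast
    linarith
  by_cases c5 : y / k ≤ 20
  · exact ⟨_, six_lin hA hk (by linarith), dyadic_step 1 2 (by linarith) (by linarith)
      (by norm_num) (by norm_num) (by norm_num) (by norm_num)⟩
  by_cases c6 : y / k ≤ 80
  · exact ⟨_, six_lin hA hk (by linarith), dyadic_step 2 4 (by linarith) (by linarith)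
      (by norm_num) (by norm_num) (by norm_num) (by norm_num)⟩
  by_cases c7 : y / k ≤ 1280
  · have h : (210 : ℕ).primeFactors.card = 4 := by decide +kernel
    refine ⟨_, lin_bound hA hk hy (by decide +kernel) tab210 (by norm_num), ?_⟩
    rw [h]
    exact dyadic_step 4 8 (by linarith) (by linarith)
      (by norm_num) (by norm_num) (by norm_num) (by norm_num)
  by_cases c8 : y / k ≤ 5120
  · have h : (2310 : ℕ).primeFactors.card = 5 := by decide +kernel
    refine ⟨_, lin_bound hA hk hy (by decide +kernel) tab2310 (by norm_num), ?_⟩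
    rw [h]
    exact dyadic_step 8 10 (by linarith) (by linarith)
      (by norm_num) (by norm_num) (by norm_num) (by norm_num)
  by_cases c9 : y / k ≤ 20480
  · exact ⟨_, sel_bound hA hk hy (z := 19) (by norm_num) (by norm_num) HH19 le_rfl,
      dyadic_step 10 12 (by linarith) (by linarith)
      (by norm_num) (by norm_num) (by norm_num) (by norm_num)⟩
  by_cases c10 : y / k ≤ 163840
  · exact ⟨_, sel_bound hA hk hy (z := 60) (by norm_num) (by norm_num) HH60 le_rfl,
      dyadic_step 12 15 (by linarith) (by linarith)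
      (by norm_num) (by norm_num) (by norm_num) (by norm_num)⟩
  by_cases c11 : y / k ≤ 1310720
  · exact ⟨_, sel_bound hA hk hy (z := 200) (by norm_num) (by norm_num) HH200 le_rfl,
      dyadic_step 15 18 (by linarith) (by linarith)
      (by norm_num) (by norm_num) (by norm_num) (by norm_num)⟩
  obtain ⟨z, H, Sg, h1, h2, h3, h4, h5⟩ := large_step (t := y / k) (by linarith)
  exact ⟨_, sel_bound hA hk hy h1 h2 h3 h4, h5⟩

lemma exists_good {k : ℕ} (hk : 0 < k) (l : ℤ) (x y : ℝ) : ∃ (l' : ℕ) (A : Finset ℕ),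
    Good k l' x y A ∧ {p : ℕ | p.Prime ∧ x - y < (p : ℝ) ∧ (p : ℝ) ≤ x ∧
      (p : ℤ) ≡ l [ZMOD (k : ℤ)]}.ncard = A.card := by
  classical
  have hk' : (0 : ℤ) < k := by exact_mod_cast hk
  refine ⟨(l % k).toNat, (Finset.range (⌊x⌋₊ + 1)).filter fun p => p.Prime ∧ x - y < (p : ℝ) ∧
    (p : ℝ) ≤ x ∧ (p : ℤ) ≡ l [ZMOD (k : ℤ)], fun p hp => ?_, ?_⟩
  · obtain ⟨h1, h2, h3, h4⟩ := (Finset.mem_filter.1 hp).2
    refine ⟨h1, ?_, h2, h3⟩
    rw [← Int.natCast_modEq_iff, Int.toNat_of_nonneg (Int.emod_nonneg _ hk'.ne')]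
    exact h4.trans (Int.mod_modEq _ _).symm
  · rw [← Set.ncard_coe_finset]
    congr 1
    ext p
    simp only [Finset.coe_filter, Finset.mem_range, Set.mem_ofPred_eq]
    exact ⟨fun h => ⟨Nat.lt_succ_of_le (Nat.le_floor h.2.2.1), h⟩, fun h => h.2⟩

end Pool.Agent.P.MP_26a8c3_nt.HybS
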